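import Mathlib

namespace Pool.Agent.Results.MP_4f9fa7_an.Hex

open Set

variable (X : Type) [NormedAddCommGroup X] [NormedSpace ℝ X]

/-- values whose supremum is `ζ⁺` -/
def ZSet (ε : ℝ) : Set ℝ :=
  {r | ∃ x y : X, ‖x‖ = 1 ∧ ‖y‖ = 1 ∧ (∃ p : StrongDual ℝ X, ‖p‖ = 1 ∧ p x = 1 ∧ p y = 0) ∧
    r = ‖x + ε • y‖}

/-- values whose supremum is `β⁺` -/
def BSet (ε : ℝ) : Set ℝ :=
  {r | ∃ x y : X, ‖x‖ = 1 ∧ ‖y‖ = 1 ∧ r = min ‖x + ε • y‖ ‖x - ε • y‖ - 1}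

def L : (Fin 3 → ℝ) →ₗ[ℝ] ℝ where
  toFun v := v 0 + v 1 + v 2
  map_add' _ _ := by simp; ring
  map_smul' _ _ := by simp; ring

def H : Submodule ℝ (Fin 3 → ℝ) := LinearMap.ker L

lemma mem_H {v : Fin 3 → ℝ} : v ∈ H ↔ v 0 + v 1 + v 2 = 0 := Iff.rfl

lemma nle (v : H) (c : ℝ) : ‖v‖ ≤ c ↔ |v.1 0| ≤ c ∧ |v.1 1| ≤ c ∧ |v.1 2| ≤ c := by
  rw [Submodule.coe_norm, pi_norm_le_iff_of_nonempty]; simp [Fin.forall_fin_succ]

lemma neq (v : H) (c : ℝ) (h : |v.1 0| ≤ c ∧ |v.1 1| ≤ c ∧ |v.1 2| ≤ c) (i : Fin 3)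
    (hi : |v.1 i| = c) : ‖v‖ = c :=
  le_antisymm ((nle v c).2 h) (hi ▸ norm_le_pi_norm v.1 i)

theorem result : ∃ (X : Type) (_ : NormedAddCommGroup X) (_ : NormedSpace ℝ X),
    CompleteSpace X ∧ Module.finrank ℝ X = 2 ∧ ∀ ε > 0, ∃ z b : ℝ,
      IsLUB (ZSet X ε) z ∧ IsLUB (BSet X ε) b ∧ b < z - 1 := by
  refine ⟨H, inferInstance, inferInstance, FiniteDimensional.complete ℝ _, ?_, fun ε hε => ?_⟩
  · have := LinearMap.finrank_range_add_finrank_ker L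
    rw [LinearMap.range_eq_top.2 fun r => ⟨![r, 0, 0], by simp [L]⟩] at this
    simp at this
    unfold H; omega
  let x : H := ⟨![1, -1, 0], by simp [mem_H]⟩
  let y : H := ⟨![0, -1, 1], by simp [mem_H]⟩
  have hx : ‖x‖ = 1 := neq x 1 (by simp [x]) 0 (by simp [x])
  have hy : ‖y‖ = 1 := neq y 1 (by simp [y]) 1 (by simp [y])
  have hb : ∀ r ∈ BSet H ε, r ≤ ε - min 1 ε / 2 := by
    rintro _ ⟨u, v, hu, hv, rfl⟩
    have h1 := (nle u 1).1 hu.le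
    have h2 := (nle v 1).1 hv.le
    have h3 := mem_H.1 u.2
    have h4 := mem_H.1 v.2
    have h5 : ε * v.1 0 + ε * v.1 1 + ε * v.1 2 = 0 := by linear_combination ε * h4
    have h6 : ∀ i, |v.1 i| ≤ 1 → |ε * v.1 i| ≤ ε := fun i h => by
      rw [abs_mul, abs_of_pos hε]; exact mul_le_of_le_one_right hε.le h
    have h7 := h6 0 h2.1
    have h8 := h6 1 h2.2.1
    have h9 := h6 2 h2.2.2
    rw [sub_le_iff_le_add, min_le_iff, nle, nle]
    simp only [Submodule.coe_add, Submodule.coe_sub, Submodule.coe_smul, Pi.add_apply,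
      Pi.sub_apply, Pi.smul_apply, smul_eq_mul]
    have m1 := min_le_left 1 ε
    have m2 := min_le_right 1 ε
    generalize ε * v.1 0 = a, ε * v.1 1 = b, ε * v.1 2 = c, min 1 ε = m at *
    simp only [abs_le] at *
    by_contra hc
    simp only [not_or, not_and_or, not_le] at hc
    obtain ⟨(h | h) | (h | h) | h | h, (g | g) | (g | g) | g | g⟩ := hc <;> linarith
  refine ⟨1 + ε, sSup (BSet H ε), IsGreatest.isLUB ⟨⟨x, y, hx, hy, ?_, ?_⟩, ?_⟩,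
    isLUB_csSup ⟨_, x, y, hx, hy, rfl⟩ ⟨_, hb⟩, ?_⟩
  · let p : StrongDual ℝ H := (ContinuousLinearMap.proj 0).comp H.subtypeL
    refine ⟨p, le_antisymm (p.opNorm_le_bound zero_le_one fun v => ?_) ?_, by simp [p, x],
      by simp [p, y]⟩
    · rw [one_mul]; exact norm_le_pi_norm v.1 0
    · simpa [hx, p, x] using p.le_opNorm x
  · refine (neq _ _ ?_ 1 ?_).symm
    · simp [x, y, abs_le]; refine ⟨?_, ?_, ?_⟩ <;> first | linarith | constructor <;> linarith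
    · simp [x, y]; rw [abs_of_neg] <;> linarith
  · rintro _ ⟨u, v, hu, hv, -, rfl⟩
    refine (norm_add_le _ _).trans ?_
    rw [norm_smul, hu, hv, Real.norm_of_nonneg hε.le, mul_one]
  · have := csSup_le (s := BSet H ε) ⟨_, x, y, hx, hy, rfl⟩ hb
    have : 0 < min 1 ε := lt_min one_pos hε
    linarith

end Pool.Agent.Results.MP_4f9fa7_an.Hex
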